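import Pool.Agent.R993.LU.Proj

/-! # Five anticommuting hermitian unitaries on two qubits -/

namespace Pool.Agent.R993.QR

open Matrix Finset Pool.Agent.R993.LU

/-- five strings of length two that pairwise anticommute -/
def gstr : Fin 5 → Fin 2 → Pauli :=
  ![![.X, .I], ![.Y, .I], ![.Z, .X], ![.Z, .Y], ![.Z, .Z]]

/-- the five anticommuting observables -/
noncomputable def gam (i : Fin 5) : Matrix (Bits 2) (Bits 2) ℂ := pauliOp (gstr i)

lemma gam_herm (i : Fin 5) : (gam i)ᴴ = gam i := pauliOp_herm _

lemma gam_sq (i : Fin 5) : gam i * gam i = 1 := pauliOp_sq _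

lemma smul_comm' {n : ℕ} (s t : Fin n → Pauli) :
    Pool.Agent.R993.LU.smul s t = Pool.Agent.R993.LU.smul t s := by
  funext i
  unfold Pool.Agent.R993.LU.smul
  cases s i <;> cases t i <;> rfl

lemma gam_anti (i j : Fin 5) (h : i ≠ j) : gam i * gam j = - (gam j * gam i) := by
  unfold gam
  rw [pauliOp_mul, pauliOp_mul, smul_comm' (gstr i) (gstr j), ← neg_smul]
  congr 1
  rw [Fin.prod_univ_two, Fin.prod_univ_two]
  fin_cases i <;> fin_cases j <;> first | exact absurd rfl h | simp [gstr, Pauli.phase]

lemma gam_sum (i j : Fin 5) : gam i * gam j + gam j * gam i = if i = j then 2 else 0 := by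
  by_cases h : i = j
  · subst h
    rw [if_pos rfl, gam_sq]
    norm_num
  · rw [if_neg h, gam_anti i j h, neg_add_cancel]

lemma gam_trace (i : Fin 5) : (gam i).trace = 0 := by
  have h := trace_pauli_tens (gstr i) ∅ (by fin_cases i <;> decide) (fun _ => 1) (by simp)
    (by simp)
  rwa [tens_one, Matrix.mul_one] at h

lemma gam_trace_mul (i j : Fin 5) (h : i ≠ j) : (gam i * gam j).trace = 0 := by
  have h1 := congrArg Matrix.trace (gam_anti i j h)
  rw [Matrix.trace_neg, Matrix.trace_mul_comm (gam j)] at h1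
  have : (2 : ℂ) * (gam i * gam j).trace = 0 := by linear_combination h1
  exact (mul_eq_zero.1 this).resolve_left (by norm_num)

/-- the sign of a bit -/
noncomputable def sg (b : Bool) : ℂ := if b then -1 else 1

lemma sg_sq (b : Bool) : sg b * sg b = 1 := by cases b <;> simp [sg]

lemma sg_star (b : Bool) : star (sg b) = sg b := by cases b <;> simp [sg]

/-- signed sum -/
noncomputable def gsum (y : Fin 5 → Bool) : Matrix (Bits 2) (Bits 2) ℂ := ∑ i, sg (y i) • gam i

lemma gsum_herm (y : Fin 5 → Bool) : (gsum y)ᴴ = gsum y := by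
  unfold gsum
  rw [Matrix.conjTranspose_sum]
  refine Finset.sum_congr rfl fun i _ => ?_
  rw [Matrix.conjTranspose_smul, gam_herm, sg_star]

lemma gsum_sq (y : Fin 5 → Bool) : gsum y * gsum y = 5 := by
  have h1 : gsum y * gsum y = ∑ i, ∑ j, (sg (y i) * sg (y j)) • (gam i * gam j) := by
    unfold gsum
    rw [Finset.sum_mul]
    refine Finset.sum_congr rfl fun i _ => ?_
    rw [Finset.mul_sum]
    refine Finset.sum_congr rfl fun j _ => ?_
    rw [smul_mul_assoc, mul_smul_comm, smul_smul]
  have h2 : gsum y * gsum y = ∑ i, ∑ j, (sg (y i) * sg (y j)) • (gam j * gam i) := by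
    rw [h1, Finset.sum_comm]
    refine Finset.sum_congr rfl fun i _ => Finset.sum_congr rfl fun j _ => ?_
    rw [mul_comm]
  have h3 : gsum y * gsum y + gsum y * gsum y = 10 := by
    nth_rewrite 1 [h1]
    rw [h2, ← Finset.sum_add_distrib]
    have : ∀ i ∈ (Finset.univ : Finset (Fin 5)),
        (∑ j, (sg (y i) * sg (y j)) • (gam i * gam j) +
          ∑ j, (sg (y i) * sg (y j)) • (gam j * gam i)) = (2 : Matrix (Bits 2) (Bits 2) ℂ) := by
      intro i _
      rw [← Finset.sum_add_distrib]
      simp only [← smul_add, gam_sum]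
      rw [Finset.sum_eq_single i]
      · rw [if_pos rfl, sg_sq, one_smul]
      · intro j _ hj
        rw [if_neg hj.symm, smul_zero]
      · intro h; exact absurd (Finset.mem_univ _) h
    rw [Finset.sum_congr rfl this]
    simp
    norm_num
  have h4 : (2 : ℂ) • (gsum y * gsum y) = (2 : ℂ) • (5 : Matrix (Bits 2) (Bits 2) ℂ) := by
    rw [two_smul, h3, two_smul]
    norm_num
  exact smul_right_injective _ (two_ne_zero) h4

end Pool.Agent.R993.QR
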